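import Pool.Agent.H578R3.SingMain

set_option autoImplicit false

namespace Pool.Agent.Results.MP_dea706_ag.DetNotGenerate

open Pool.Agent.H578R3.Sing

/-- For all `n ≥ 2` and `m ≥ 3` the determinantal polynomials `f_c` do not generate the vanishing
ideal of the variety of singular `m`-tuples of complex `n × n` matrices: the ideal `J` generated by
them is strictly smaller than the vanishing ideal `I`. -/
theorem result (n m : ℕ) (hn : 2 ≤ n) (hm : 3 ≤ m) : J n m < I n m :=
  lt_of_le_of_ne (J_le_I n m) (neg_part n m hn hm)

end Pool.Agent.Results.MP_dea706_ag.DetNotGenerate
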